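import Pool.Agent.H37.UMD.Stmts2

set_option autoImplicit false

open MeasureTheory ProbabilityTheory Finset

namespace Pool.UMD

/-- the value of `f` on a cell -/
private def EXP_v {m : ℕ} (f : ℕ → ℕ → ℝ) (c : Fin m × Fin m) : ℝ := f c.1 c.2

private theorem EXP_cnt {n m : ℕ} (f : ℕ → ℕ → ℝ) (cx : Fin n → Fin m × Fin m) :
    pr m (fun i j => (Pool.UMC.cnt cx i j : ℝ)) f = ∑ l, EXP_v f (cx l) := by
  unfold pr
  have h1 : ∀ i j : ℕ, ((Pool.UMC.cnt cx i j : ℕ) : ℝ) * f i j =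
      ∑ l : Fin n, if ((cx l).1 : ℕ) = i ∧ ((cx l).2 : ℕ) = j then f i j else 0 := by
    intro i j
    unfold Pool.UMC.cnt
    rw [← Finset.sum_filter, Finset.sum_const, nsmul_eq_mul]
  simp_rw [h1]
  have h2 : ∀ i : ℕ, ∑ j ∈ range m, ∑ l : Fin n,
      (if ((cx l).1 : ℕ) = i ∧ ((cx l).2 : ℕ) = j then f i j else 0) =
      ∑ l : Fin n, ∑ j ∈ range m,
      (if ((cx l).1 : ℕ) = i ∧ ((cx l).2 : ℕ) = j then f i j else 0) :=
    fun i => Finset.sum_comm
  simp_rw [h2]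
  rw [Finset.sum_comm]
  refine Finset.sum_congr rfl fun l _ => ?_
  rw [Finset.sum_eq_single ((cx l).1 : ℕ)]
  · rw [Finset.sum_eq_single ((cx l).2 : ℕ)]
    · simp [EXP_v]
    · intro j _ hj
      rw [if_neg fun h => hj h.2.symm]
    · intro h
      exact absurd (Finset.mem_range.2 (cx l).2.2) h
  · intro i _ hi
    exact Finset.sum_eq_zero fun j _ => if_neg fun h => hi h.1.symm
  · intro h
    exact absurd (Finset.mem_range.2 (cx l).1.2) h

private theorem EXP_wc {n m : ℕ} (f : ℕ → ℕ → ℝ) (cx cy : Fin n → Fin m × Fin m) :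
    pr m (wc cx cy) f = ∑ l, EXP_v f (cx l) - ∑ l, EXP_v f (cy l) := by
  rw [← EXP_cnt, ← EXP_cnt]
  unfold pr wc
  rw [← Finset.sum_sub_distrib]
  refine Finset.sum_congr rfl fun i _ => ?_
  rw [← Finset.sum_sub_distrib]
  exact Finset.sum_congr rfl fun j _ => by ring

private theorem EXP_prod {n : ℕ} {Q : Type*} [Fintype Q] (X : Q → ℝ) :
    ∑ c : Fin n → Q, Real.exp (∑ l, X (c l)) = (∑ q, Real.exp (X q)) ^ n := by
  classical
  have e2 := (Finset.prod_univ_sum (fun _ : Fin n => (univ : Finset Q))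
    (fun _ x => Real.exp (X x))).symm
  rw [Fintype.piFinset_univ] at e2
  rw [Finset.prod_const, Finset.card_univ, Fintype.card_fin] at e2
  rw [← e2]
  exact Finset.sum_congr rfl fun c _ => Real.exp_sum _ _

private theorem EXP_one {Q : Type*} [Fintype Q] [Nonempty Q] (X : Q → ℝ) (hX : ∀ q, |X q| ≤ 1) :
    ∑ q, Real.exp (X q) ≤ (Fintype.card Q : ℝ) *
      Real.exp ((∑ q, X q + ∑ q, X q ^ 2) / Fintype.card Q) := by
  have hN : (0 : ℝ) < Fintype.card Q := by exact_mod_cast Fintype.card_pos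
  have h1 : ∀ q, Real.exp (X q) ≤ 1 + X q + X q ^ 2 := fun q => by
    have := Real.abs_exp_sub_one_sub_id_le (hX q)
    rw [abs_le] at this
    linarith [this.2]
  have h2 : ∑ q, Real.exp (X q) ≤ (Fintype.card Q : ℝ) + (∑ q, X q + ∑ q, X q ^ 2) := by
    refine (Finset.sum_le_sum fun q _ => h1 q).trans ?_
    rw [Finset.sum_add_distrib, Finset.sum_add_distrib]
    simp [add_assoc]
  refine h2.trans ?_
  have h3 := Real.add_one_le_exp ((∑ q, X q + ∑ q, X q ^ 2) / Fintype.card Q)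
  have h4 := mul_le_mul_of_nonneg_left h3 hN.le
  rw [mul_add, mul_div_cancel₀ _ hN.ne'] at h4
  linarith

private theorem EXP_sq {m : ℕ} (f : ℕ → ℕ → ℝ) :
    ∑ q : Fin m × Fin m, EXP_v f q ^ 2 = pr m f f := by
  unfold pr EXP_v
  rw [Fintype.sum_prod_type, Finset.sum_range]
  refine Finset.sum_congr rfl fun i _ => ?_
  rw [Finset.sum_range]
  exact Finset.sum_congr rfl fun j _ => by ring

theorem sExp : SExp := by
  intro n m K hm hK hK0 f hf
  have hsK : 0 < √K := Real.sqrt_pos.2 hK0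
  have hm0 : (0 : ℝ) < m := by exact_mod_cast hm
  have : NeZero m := ⟨by omega⟩
  set X : Fin m × Fin m → ℝ := fun q => EXP_v f q / √K with hX
  have hX1 : ∀ q, |X q| ≤ 1 := fun q => by
    simp only [hX]
    rw [abs_div, abs_of_pos hsK, div_le_one hsK]
    exact hf _ _
  have hX2 : ∀ q, |(-X q)| ≤ 1 := fun q => by rw [abs_neg]; exact hX1 q
  have e1 : ∀ cx cy : Fin n → Fin m × Fin m, Real.exp (pr m (wc cx cy) f / √K) =
      Real.exp (∑ l, X (cx l)) * Real.exp (∑ l, -X (cy l)) := by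
    intro cx cy
    rw [← Real.exp_add, EXP_wc, sub_div, Finset.sum_div, Finset.sum_div, Finset.sum_neg_distrib]
    rfl
  unfold av
  simp_rw [e1, ← Finset.mul_sum, ← Finset.sum_mul]
  rw [EXP_prod X, EXP_prod (fun q => -X q)]
  have hc : (Fintype.card (Fin m × Fin m) : ℝ) = (m : ℝ) ^ 2 := by
    simp [sq]
  have b1 := EXP_one X hX1
  have b2 := EXP_one (fun q => -X q) hX2
  rw [hc] at b1 b2
  have hN : (0 : ℝ) < (m : ℝ) ^ 2 := by positivity
  rw [div_le_iff₀ (by positivity)]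
  have p1 := pow_le_pow_left₀ (Finset.sum_nonneg fun q _ => (Real.exp_pos _).le) b1 n
  have p2 := pow_le_pow_left₀ (Finset.sum_nonneg fun q _ => (Real.exp_pos _).le) b2 n
  refine (mul_le_mul p1 p2 (pow_nonneg (Finset.sum_nonneg fun q _ => (Real.exp_pos _).le) _)
    (by positivity)).trans ?_
  rw [mul_pow, mul_pow, ← Real.exp_nat_mul, ← Real.exp_nat_mul]
  have h5 : (n : ℝ) * ((∑ q, X q + ∑ q, X q ^ 2) / (m : ℝ) ^ 2) +
      (n : ℝ) * ((∑ q, -X q + ∑ q, (-X q) ^ 2) / (m : ℝ) ^ 2) = 2 * pr m f f := by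
    have h6 : ∑ q, X q ^ 2 = pr m f f / K := by
      rw [← EXP_sq, Finset.sum_div]
      refine Finset.sum_congr rfl fun q _ => ?_
      simp only [hX]
      rw [div_pow, Real.sq_sqrt hK0.le]
    have h7 : ∑ q, (-X q) ^ 2 = pr m f f / K := by
      rw [← h6]
      exact Finset.sum_congr rfl fun q _ => by ring
    have h8 : (n : ℝ) = K * (m : ℝ) ^ 2 := by
      rw [hK]
      field_simp
    rw [h6, h7, Finset.sum_neg_distrib, h8]
    field_simp
    ring
  rw [mul_mul_mul_comm, ← Real.exp_add, h5, ← mul_pow, ← sq, ← pow_mul, mul_comm]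

end Pool.UMD
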