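import Pool.Agent.H37.UMD.Stmts2

set_option autoImplicit false

open MeasureTheory ProbabilityTheory Finset

namespace Pool.UMD

private theorem GDE_mono {n m : ℕ}
    {E F : (Fin n → Fin m × Fin m) → (Fin n → Fin m × Fin m) → Prop}
    (h : ∀ cx cy, E cx cy → F cx cy) : Pool.UMC.frac n m E ≤ Pool.UMC.frac n m F := by
  classical
  unfold Pool.UMC.frac
  refine div_le_div_of_nonneg_right ?_ (by positivity)
  exact_mod_cast Finset.card_le_card fun w hw => by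
    rw [Finset.mem_filter] at hw ⊢
    exact ⟨hw.1, h _ _ hw.2⟩

private theorem GDE_or {n m : ℕ}
    {E F : (Fin n → Fin m × Fin m) → (Fin n → Fin m × Fin m) → Prop} :
    Pool.UMC.frac n m (fun cx cy => E cx cy ∨ F cx cy) ≤
      Pool.UMC.frac n m E + Pool.UMC.frac n m F := by
  unfold Pool.UMC.frac
  rw [← add_div]
  refine div_le_div_of_nonneg_right ?_ (by positivity)
  rw [← Nat.cast_add]
  refine Nat.cast_le.2 ((Finset.card_le_card fun w hw => ?_).trans (Finset.card_union_le _ _))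
  simp only [Finset.mem_union, Finset.mem_filter, Finset.mem_univ, true_and] at hw ⊢
  exact hw

theorem sGde (hSup : SSup) (hRoo : SRoo) (hMrk : SMrk) : SGde := by
  intro D hD hDu
  obtain ⟨Cr, hCr, hroo⟩ := hRoo
  obtain ⟨Cκ, Ch, hCκ, hCh, hmrk⟩ := hMrk D hD hDu
  have hCκ0 : 0 < Cκ := by linarith
  refine ⟨72 * Cκ ^ 2 + 1, 1 / (30 * Cκ), Ch, Cr, by nlinarith [sq_nonneg Cκ], by positivity,
    fun p => ⟨450 * Cκ ^ 2 + 8 * (p + 8), by positivity, ?_⟩⟩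
  intro n k K hn hK hlog
  have hn0 : (0 : ℝ) < n := by positivity
  have hn2 : (2 : ℝ) ≤ n := by exact_mod_cast hn
  have hlog2 : (1 : ℝ) / 2 ≤ Real.log 2 := by linarith [Real.log_two_gt_d9]
  have hlogn : Real.log 2 ≤ Real.log n := Real.log_le_log (by norm_num) hn2
  have hlogn' : (1 : ℝ) / 2 ≤ Real.log n := hlog2.trans hlogn
  have hp0 : (0 : ℝ) ≤ p := Nat.cast_nonneg p
  have hCκ2 : 1 ≤ Cκ ^ 2 := by nlinarith
  have hK1 : 225 * Cκ ^ 2 ≤ K := by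
    have : (450 * Cκ ^ 2) * (1 / 2) ≤ (450 * Cκ ^ 2 + 8 * (p + 8)) * Real.log n :=
      mul_le_mul (by linarith) hlogn' (by norm_num) (by positivity)
    linarith
  have hKone : 1 ≤ K := by linarith
  have hK0 : 0 < K := by linarith
  have h4k : (4 : ℝ) ^ k ≤ n := by
    have h4 : (0 : ℝ) < 4 ^ k := by positivity
    rw [hK, le_div_iff₀ h4, one_mul] at hKone
    exact hKone
  have h2k : (2 * k : ℝ) ≤ K := by
    have h1 : Real.log ((4 : ℝ) ^ k) ≤ Real.log n := Real.log_le_log (by positivity) h4k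
    rw [Real.log_pow] at h1
    have h2 : Real.log 4 = 2 * Real.log 2 := by
      rw [show (4 : ℝ) = 2 ^ 2 by norm_num, Real.log_pow]
      norm_num
    rw [h2] at h1
    have h3 : (k : ℝ) ≤ Real.log n := by
      have hk0 : (0 : ℝ) ≤ k := Nat.cast_nonneg k
      nlinarith
    have h4 : 2 * Real.log n ≤ (450 * Cκ ^ 2 + 8 * (p + 8)) * Real.log n :=
      mul_le_mul_of_nonneg_right (by linarith) (by linarith)
    linarith
  have hsK : 15 * Cκ ≤ √K := by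
    apply Real.le_sqrt_of_sq_le
    nlinarith
  set Λ : ℕ := ⌊√K / (15 * Cκ)⌋₊ with hΛ
  have hx1 : 1 ≤ √K / (15 * Cκ) := by
    rw [le_div_iff₀ (by positivity), one_mul]
    exact hsK
  have hΛ1 : (Λ : ℝ) ≤ √K / (15 * Cκ) := Nat.floor_le (by positivity)
  have hΛ2 : √K / (15 * Cκ) < Λ + 1 := Nat.lt_floor_add_one _
  have hΛ3 : (1 : ℝ) ≤ Λ := by
    have : 1 ≤ Λ := Nat.le_floor (by exact_mod_cast hx1)
    exact_mod_cast this
  have hΛ4 : 15 * Cκ * Λ ≤ √K := by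
    have := mul_le_mul_of_nonneg_left hΛ1 (show (0 : ℝ) ≤ 15 * Cκ by positivity)
    rwa [mul_div_cancel₀ _ (by positivity)] at this
  refine ⟨Λ, ?_, ?_⟩
  · have h1 : 1 / (30 * Cκ) * √K = √K / (15 * Cκ) / 2 := by
      field_simp
      norm_num
    rw [h1]
    linarith
  have s1 := hSup n k K hK hKone
  have s2 := hroo n k K hK hKone
  have s3 := hmrk n k K Λ hK hKone hΛ4 h2k
  have hbig : Pool.UMC.frac n (2 ^ k) (fun cx cy =>
      ¬ Gd D Λ (72 * Cκ ^ 2 + 1) Ch Cr k K (wc cx cy)) ≤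
      2 * (4 : ℝ) ^ k * Real.exp (-(K / 8)) + (100 * (4 : ℝ) ^ k * Real.exp (-K) +
        Real.exp (-K)) := by
    refine (GDE_mono (F := fun cx cy => (¬ ∀ i j, |wc cx cy i j| ≤ K) ∨
      (((∀ i j, |wc cx cy i j| ≤ K) ∧ ¬ ∀ a : ℝ × ℝ,
      |mu (Wf (2 ^ k) K (wc cx cy)) a (A0 (2 * k))| ≤ Cr * √K / 2 ^ k ∧
      |(mz (Wf (2 ^ k) K (wc cx cy)) a (A0 (2 * k))).1| ≤ Cr * √K / 2 ^ k ∧
      |(mz (Wf (2 ^ k) K (wc cx cy)) a (A0 (2 * k))).2| ≤ Cr * √K / 2 ^ k) ∨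
      ¬ ∫ a in Box (2 ^ k),
      Zk D Λ (72 * Cκ ^ 2 + 1) (Wf (2 ^ k) K (wc cx cy)) (2 * k) a (A0 (2 * k)) ≤
        4 * ((2 ^ k : ℕ) : ℝ) ^ 2 * Real.exp (Ch * K))) fun cx cy h => ?_).trans ?_
    · by_contra hcon
      push Not at hcon
      obtain ⟨c1, c2, c3⟩ := hcon
      exact h ⟨c1, c2 c1, c3⟩
    · refine GDE_or.trans (add_le_add s1 (GDE_or.trans (add_le_add s2 s3)))
  refine hbig.trans ?_
  have e1 : Real.exp (-K) ≤ Real.exp (-(K / 8)) := Real.exp_le_exp.2 (by linarith)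
  have e0 : 0 < Real.exp (-(K / 8)) := Real.exp_pos _
  have e2 : Real.exp (-(K / 8)) ≤ 1 / (n : ℝ) ^ (p + 8) := by
    rw [one_div, ← Real.exp_log (show (0 : ℝ) < (n : ℝ) ^ (p + 8) by positivity), ← Real.exp_neg]
    refine Real.exp_le_exp.2 ?_
    rw [Real.log_pow]
    push_cast
    have h1 : (8 * ((p : ℝ) + 8)) * Real.log n ≤ (450 * Cκ ^ 2 + 8 * (p + 8)) * Real.log n :=
      mul_le_mul_of_nonneg_right (by nlinarith) (by linarith)
    linarith
  have e3 : 2 * (4 : ℝ) ^ k * Real.exp (-(K / 8)) + (100 * (4 : ℝ) ^ k * Real.exp (-K) +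
        Real.exp (-K)) ≤ 103 * n * Real.exp (-(K / 8)) := by
    have h4 : (0 : ℝ) < 4 ^ k := by positivity
    have a1 : 2 * (4 : ℝ) ^ k * Real.exp (-(K / 8)) ≤ 2 * n * Real.exp (-(K / 8)) :=
      mul_le_mul_of_nonneg_right (by linarith) e0.le
    have a2 : 100 * (4 : ℝ) ^ k * Real.exp (-K) ≤ 100 * n * Real.exp (-(K / 8)) :=
      mul_le_mul (by linarith) e1 (Real.exp_pos _).le (by positivity)
    have a3 : Real.exp (-K) ≤ n * Real.exp (-(K / 8)) := by nlinarith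
    linarith
  refine e3.trans ?_
  have e4 : (103 : ℝ) * n ≤ (n : ℝ) ^ 8 := by
    have h7 : (2 : ℝ) ^ 7 ≤ (n : ℝ) ^ 7 := pow_le_pow_left₀ (by norm_num) hn2 7
    have h8 : (n : ℝ) ^ 8 = (n : ℝ) ^ 7 * n := by ring
    rw [h8]
    exact mul_le_mul_of_nonneg_right (by linarith) hn0.le
  calc 103 * n * Real.exp (-(K / 8)) ≤ (n : ℝ) ^ 8 * (1 / (n : ℝ) ^ (p + 8)) :=
        mul_le_mul e4 e2 e0.le (by positivity)
    _ = 1 / (n : ℝ) ^ p := by
        rw [pow_add]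
        field_simp

end Pool.UMD
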